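import Mathlib
import Pool.Agent.W811.Dos.Meas

set_option autoImplicit false

open MeasureTheory Filter Topology Set
open scoped ENNReal NNReal BoundedContinuousFunction

namespace Pool.Agent.W7.Dos

open Pool.Agent.W811.Stu Pool.Agent.W811.Dos

theorem measurable_gauss : Measurable gauss := by
  unfold gauss
  exact measurable_fract.comp measurable_inv

theorem measurable_dig (k : ℕ) : Measurable (fun α => dig α k) := by
  unfold dig
  exact Nat.measurable_floor.comp ((measurable_gauss.iterate k).inv)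

/-- the irrational numbers between 0 and 1 -/
def B : Set ℝ := {α : ℝ | Irrational α ∧ α ∈ Set.Ioo (0:ℝ) 1}

theorem measurable_base : MeasurableSet B := by
  have h1 : MeasurableSet {α : ℝ | Irrational α} := by
    have : {α : ℝ | Irrational α} = (Set.range ((↑) : ℚ → ℝ))ᶜ := rfl
    rw [this]; exact (Set.countable_range _).measurableSet.compl
  exact h1.inter measurableSet_Ioo

theorem meas_av (Z : ℕ → (ℕ → ℕ) → Finset ℝ)
    (hZ : ∀ m d d', (∀ k < m, d k = d' k) → Z m d = Z m d') (m : ℕ) (g : ℝ → ℝ) :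
    Measurable fun α => av (Z m (dig α)) g := by
  let f : ℝ → (Fin m → ℕ) := fun α i => dig α i
  have hf : Measurable f := measurable_pi_lambda _ (fun i => measurable_dig i)
  let S : (Fin m → ℕ) → ℝ := fun e => av (Z m (fun k => if h : k < m then e ⟨k, h⟩ else 0)) g
  have h1 : (fun α => av (Z m (dig α)) g) = S ∘ f := by
    ext α
    have h2 : Z m (dig α) = Z m (fun k => if h : k < m then f α ⟨k, h⟩ else 0) := by
      apply hZ
      intro k hk
      rw [dif_pos hk]
    show av (Z m (dig α)) g = av (Z m (fun k => if h : k < m then f α ⟨k, h⟩ else 0)) g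
    rw [← h2]
  rw [h1]
  exact (measurable_of_countable S).comp hf

theorem meas_int (Z : ℕ → (ℕ → ℕ) → Finset ℝ)
    (hZ : ∀ m d d', (∀ k < m, d k = d' k) → Z m d = Z m d') (μ : ℝ → Measure ℝ)
    (hμ : ∀ α, Irrational α → α ∈ Ioo (0:ℝ) 1 → IsProbabilityMeasure (μ α) ∧
      Lim (fun m => Z m (dig α)) (μ α)) (g : ℝ → ℝ) (hg : Continuous g) :
    Measurable (B.indicator fun α => ∫ x, g x ∂(μ α)) := by
  refine measurable_of_tendsto_metrizable (f := fun m => B.indicator fun α => av (Z m (dig α)) g)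
    (fun m => (meas_av Z hZ m g).indicator measurable_base) ?_
  rw [tendsto_pi_nhds]
  intro α
  by_cases h : α ∈ B
  · simp only [Set.indicator_of_mem h]
    exact (hμ α h.1 h.2).2 g hg
  · simp only [Set.indicator_of_notMem h]
    exact tendsto_const_nhds

theorem meas_closed (Z : ℕ → (ℕ → ℕ) → Finset ℝ)
    (hZ : ∀ m d d', (∀ k < m, d k = d' k) → Z m d = Z m d') (μ : ℝ → Measure ℝ)
    (hμ : ∀ α, Irrational α → α ∈ Ioo (0:ℝ) 1 → IsProbabilityMeasure (μ α) ∧
      Lim (fun m => Z m (dig α)) (μ α)) (F : Set ℝ) (hF : IsClosed F) :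
    Measurable (B.indicator fun α => (μ α) F) := by
  have hpos : ∀ n : ℕ, (0 : ℝ) < 1 / ((n : ℝ) + 1) := fun n => by positivity
  have hlim : Tendsto (fun n : ℕ => 1 / ((n : ℝ) + 1)) atTop (𝓝 0) :=
    tendsto_one_div_add_atTop_nhds_zero_nat
  refine measurable_of_tendsto_metrizable
    (f := fun n : ℕ => fun α => ENNReal.ofReal
      ((B.indicator fun α => ∫ x, ((thickenedIndicator (hpos n) F x : ℝ≥0) : ℝ) ∂(μ α)) α))
    (fun n => (meas_int Z hZ μ hμ _ ?_).ennreal_ofReal) ?_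
  · exact NNReal.continuous_coe.comp (thickenedIndicator (hpos n) F).continuous
  rw [tendsto_pi_nhds]
  intro α
  by_cases h : α ∈ B
  · simp only [Set.indicator_of_mem h]
    have := (hμ α h.1 h.2).1
    have h1 := tendsto_lintegral_thickenedIndicator_of_isClosed (μ α) hF hpos hlim
    refine h1.congr fun n => ?_
    apply lintegral_coe_eq_integral
    exact (BoundedContinuousFunction.integrable_of_nnreal (μ α) (thickenedIndicator (hpos n) F))
  · simp only [Set.indicator_of_notMem h, ENNReal.ofReal_zero]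
    exact tendsto_const_nhds

theorem meas_open (Z : ℕ → (ℕ → ℕ) → Finset ℝ)
    (hZ : ∀ m d d', (∀ k < m, d k = d' k) → Z m d = Z m d') (μ : ℝ → Measure ℝ)
    (hμ : ∀ α, Irrational α → α ∈ Ioo (0:ℝ) 1 → IsProbabilityMeasure (μ α) ∧
      Lim (fun m => Z m (dig α)) (μ α)) (O : Set ℝ) (hO : IsOpen O) :
    Measurable (B.indicator fun α => (μ α) O) := by
  have h1 : (B.indicator fun α => (μ α) O) =
      fun α => (B.indicator (fun _ => (1 : ℝ≥0∞))) α - (B.indicator fun α => (μ α) Oᶜ) α := by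
    ext α
    by_cases h : α ∈ B
    · simp only [Set.indicator_of_mem h]
      have := (hμ α h.1 h.2).1
      have h2 := prob_compl_eq_one_sub (μ := μ α) hO.measurableSet.compl
      rw [compl_compl] at h2
      exact h2
    · simp only [Set.indicator_of_notMem h, tsub_zero]
  rw [h1]
  exact (measurable_const.indicator measurable_base).sub
    (meas_closed Z hZ μ hμ Oᶜ hO.isClosed_compl)

/-- measurability of the upper dimension -/
theorem mes (hUd : TUd) : TMes := by
  intro Z hZ μ hμ t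
  have hset : ∀ (O : Set ℝ), IsOpen O → ∀ c : ℝ≥0∞, MeasurableSet (B ∩ {α | c < (μ α) O}) := by
    intro O hO c
    have h1 : B ∩ {α | c < (μ α) O} = B ∩ (B.indicator fun α => (μ α) O) ⁻¹' (Ioi c) := by
      ext α
      simp only [mem_inter_iff, mem_ofPred_eq, mem_preimage, mem_Ioi]
      constructor
      · rintro ⟨h1, h2⟩
        exact ⟨h1, by rw [Set.indicator_of_mem h1]; exact h2⟩
      · rintro ⟨h1, h2⟩
        rw [Set.indicator_of_mem h1] at h2
        exact ⟨h1, h2⟩
    rw [h1]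
    exact measurable_base.inter (meas_open Z hZ μ hμ O hO measurableSet_Ioi)
  have hle : ∀ r : ℝ≥0, MeasurableSet (B ∩ {α | upDim (μ α) ≤ r}) := by
    intro r
    have h1 : B ∩ {α | upDim (μ α) ≤ r} =
        B ∩ ⋂ p : {p : ℚ × ℚ // (r : ℝ) < (p.1 : ℝ) ∧ 0 < p.2},
          ⋃ F : {F : Finset (ℚ × ℚ) // (∀ I ∈ F, I.1 < I.2) ∧
            (∑ I ∈ F, ((I.2 - I.1 : ℚ) : ℝ) ^ (p.1.1 : ℝ)) < p.1.2},
            B ∩ {α | ENNReal.ofReal (1 - p.1.2) < (μ α) (⋃ I ∈ F.1, Ioo (I.1 : ℝ) (I.2 : ℝ))} := by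
      ext α
      simp only [mem_inter_iff, mem_ofPred_eq, mem_iInter, mem_iUnion]
      constructor
      · rintro ⟨h1, h2⟩
        have := (hμ α h1.1 h1.2).1
        refine ⟨h1, fun p => ?_⟩
        obtain ⟨F, hF1, hF2, hF3⟩ := (hUd (μ α) inferInstance r).1 h2 p.1.1 p.2.1 p.1.2 p.2.2
        exact ⟨⟨F, hF1, hF2⟩, h1, hF3⟩
      · rintro ⟨h1, h2⟩
        have := (hμ α h1.1 h1.2).1
        refine ⟨h1, (hUd (μ α) inferInstance r).2 fun s hs ε hε => ?_⟩
        obtain ⟨F, -, hF⟩ := h2 ⟨(s, ε), hs, hε⟩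
        exact ⟨F.1, F.2.1, F.2.2, hF⟩
    rw [h1]
    refine measurable_base.inter (MeasurableSet.iInter fun p => MeasurableSet.iUnion fun F => ?_)
    exact hset _ (isOpen_biUnion fun _ _ => isOpen_Ioo) _
  have hmain : {α : ℝ | Irrational α ∧ α ∈ Ioo (0:ℝ) 1 ∧ t ≤ upDim (μ α)} =
      B \ ⋃ q : {q : ℚ // ((Real.toNNReal q : ℝ≥0) : ℝ≥0∞) < t},
        (B ∩ {α | upDim (μ α) ≤ (Real.toNNReal q.1 : ℝ≥0)}) := by
    ext α
    simp only [mem_ofPred_eq, Set.mem_sdiff, mem_iUnion, mem_inter_iff, not_exists, not_and]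
    constructor
    · rintro ⟨h1, h2, h3⟩
      exact ⟨⟨h1, h2⟩, fun q _ hq => absurd (h3.trans hq) (not_le.2 q.2)⟩
    · rintro ⟨h1, h2⟩
      refine ⟨h1.1, h1.2, ?_⟩
      by_contra hcon
      push Not at hcon
      obtain ⟨q, hq0, hq1, hq2⟩ := ENNReal.lt_iff_exists_rat_btwn.1 hcon
      exact h2 ⟨q, hq2⟩ h1 hq1.le
  rw [hmain]
  exact measurable_base.diff (MeasurableSet.iUnion fun q => hle _)

end Pool.Agent.W7.Dos
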